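import Pool.Agent.J6H67.LX.Main

/-!
# Simple zeros near the exceptionally large and small values of zeta

The Montgomery–Taylor proportion of simple zeros on the critical line holds in short intervals around
exceptional values of the Riemann zeta function, and consequences for the derivative at the simple zeros.
-/

open Filter Topology MeasureTheory Complex

namespace Pool.Agent.Results.MP_f259ea_nt.ExceptionalValues

/-- the Montgomery–Taylor constant `1/2 + cot(1/√2)/√2 = 1.3274...` -/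
noncomputable def cMT : ℝ := 1 / 2 + Real.cot (1 / Real.sqrt 2) / Real.sqrt 2

/-- the nontrivial zeros of zeta with ordinate in `[a, b]` -/
def zeros (a b : ℝ) : Set ℂ :=
  {s : ℂ | riemannZeta s = 0 ∧ 0 < s.re ∧ s.re < 1 ∧ a ≤ s.im ∧ s.im ≤ b}

/-- the number of nontrivial zeros with ordinate in `[a, b]`, counted with multiplicity -/
noncomputable def N (a b : ℝ) : ℕ := ∑ᶠ s ∈ zeros a b, analyticOrderNatAt riemannZeta s

/-- the simple zeros on the critical line with ordinate in `[a, b]` -/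
def simple (a b : ℝ) : Set ℂ := {s : ℂ | s ∈ zeros a b ∧ s.re = 1 / 2 ∧ deriv riemannZeta s ≠ 0}

/-- the simple zeros on the critical line with ordinate in `[a, b]` whose distance from every other nontrivial
zero is at least `d`, and at which `|ζ'|` lies between `(log T)^(1+κ-ε)` and `(log T)^(1+κ+ε)` -/
def good (κ ε d T a b : ℝ) : Set ℂ :=
  {s : ℂ | s ∈ simple a b ∧
    (∀ s' : ℂ, riemannZeta s' = 0 → 0 < s'.re → s'.re < 1 → s' ≠ s → d ≤ ‖s - s'‖) ∧
    Real.log T ^ (1 + κ - ε) ≤ ‖deriv riemannZeta s‖ ∧ ‖deriv riemannZeta s‖ ≤ Real.log T ^ (1 + κ + ε)}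

open H370 Pool.Agent.Y745.SW Pool.Agent.Y745.LD

lemma deriv_ne {s : ℂ} (hs1 : s ≠ 1) (h : riemannZeta s = 0) (h1 : analyticOrderNatAt riemannZeta s = 1) :
    deriv riemannZeta s ≠ 0 := by
  have hd : DifferentiableOn ℂ riemannZeta ({1}ᶜ : Set ℂ) := fun z hz =>
    (differentiableAt_riemannZeta hz).differentiableWithinAt
  have ha : AnalyticAt ℂ riemannZeta s := hd.analyticAt (isOpen_compl_singleton.mem_nhds hs1)
  have h2 : analyticOrderAt riemannZeta s = 1 := by
    unfold analyticOrderNatAt at h1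
    have h3 : analyticOrderAt riemannZeta s ≠ ⊤ := by
      intro h4; rw [h4] at h1; simp at h1
    rw [← ENat.natCast_toNat h3, h1]; rfl
  have h3 := ha.analyticOrderAt_deriv_add_one
  simp only [h, sub_zero] at h3
  rw [h2] at h3
  have h4 : analyticOrderAt (deriv riemannZeta) s = 0 := by
    revert h3
    generalize analyticOrderAt (deriv riemannZeta) s = x
    intro h3
    cases x with
    | top => simp at h3
    | coe n =>
      have h6 : n + 1 = 1 := by exact_mod_cast h3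
      have h7 : n = 0 := by omega
      rw [h7]; rfl
  exact ha.deriv.analyticOrderAt_eq_zero.mp h4

lemma mem_Z {U1 U2 : ℝ} (hU : 1 ≤ U1) (s : ℂ) : s ∈ Zf riemannZeta U1 U2 ↔
    0 < s.re ∧ s.re < 1 ∧ U1 < s.im ∧ s.im ≤ U2 ∧ riemannZeta s = 0 := by
  rw [mem_Zf good_zeta hU]; rfl

/-- the sets of zeros are finite -/
theorem zeros_finite (a b : ℝ) (ha : 2 ≤ a) : (zeros a b).Finite := by
  refine (Zf riemannZeta (a - 1) b).finite_toSet.subset fun s hs => ?_
  rw [Finset.mem_coe, mem_Z (by linarith)]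
  exact ⟨hs.2.1, hs.2.2.1, by linarith [hs.2.2.2.1], hs.2.2.2.2, hs.1⟩

lemma zeros_eq {U1 U2 a b : ℝ} (hU : 1 ≤ U1) (h1 : U1 < a) (h2 : b ≤ U2) :
    zeros a b = ↑((Zf riemannZeta U1 U2).filter (fun s => a ≤ s.im ∧ s.im ≤ b)) := by
  ext s
  rw [Finset.mem_coe, Finset.mem_filter, mem_Z hU]
  constructor
  · rintro ⟨z1, z2, z3, z4, z5⟩
    exact ⟨⟨z2, z3, by linarith, by linarith, z1⟩, z4, z5⟩
  · rintro ⟨⟨z2, z3, -, -, z1⟩, z4, z5⟩
    exact ⟨z1, z2, z3, z4, z5⟩

lemma N_eq {U1 U2 a b : ℝ} (hU : 1 ≤ U1) (h1 : U1 < a) (h2 : b ≤ U2) : (N a b : ℝ) = nz U1 U2 a b := by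
  classical
  unfold N nz
  rw [zeros_eq hU h1 h2, finsum_mem_coe_finset, Nat.cast_sum]
  refine Finset.sum_congr ?_ fun s _ => rfl
  congr

/-- from the bounds for the logarithm to the bounds for the value -/
lemma pow_bounds {L x ε κ : ℝ} (hL : 1 < L) (hx : 0 < x) (h : |Real.log x - κ * Real.log L| ≤ ε * Real.log L) :
    L ^ (κ - ε) ≤ x ∧ x ≤ L ^ (κ + ε) := by
  have hL0 : 0 < L := by linarith
  rw [abs_le] at h
  constructor
  · rw [← Real.log_le_log_iff (by positivity) hx, Real.log_rpow hL0]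
    linarith [h.1]
  · rw [← Real.log_le_log_iff hx (by positivity), Real.log_rpow hL0]
    linarith [h.2]

lemma good_of_iso {U1 U2 δ κ ε T a b : ℝ} {s : ℂ} (hT : 10 ≤ T) (hL : 1 < Real.log T) (hδ1 : δ ≤ 1 / 10)
    (hU1 : T ≤ U1) (hU1' : U1 ≤ T + 1) (hU2 : 2 * T - 1 ≤ U2) (hs : s ∈ isoS U1 U2 (δ / Real.log T))
    (h1 : T + 2 ≤ s.im) (h2 : s.im ≤ 2 * T - 2) (ha : a ≤ s.im) (hb : s.im ≤ b)
    (hd : |Real.log ‖deriv riemannZeta s‖ - (1 + κ) * LL T| ≤ ε * LL T) :
    s ∈ good κ ε (δ / Real.log T) T a b := by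
  classical
  have hU : 1 ≤ U1 := by linarith
  unfold isoS at hs
  rw [Finset.mem_filter, mem_Z hU] at hs
  obtain ⟨⟨z1, z2, z3, z4, z5⟩, z6, z7, z8⟩ := hs
  have hs1 : s ≠ 1 := by
    rintro rfl
    norm_num at z6
  have hne := deriv_ne hs1 z5 z7
  refine ⟨⟨⟨z5, z1, z2, ha, hb⟩, z6, hne⟩, ?_, ?_⟩
  · intro s' h3 h4 h5 h6
    by_cases h7 : U1 < s'.im ∧ s'.im ≤ U2
    · exact z8 s' ((mem_Z hU s').2 ⟨h4, h5, h7.1, h7.2, h3⟩) h6
    · have h8 : (1:ℝ) ≤ |(s - s').im| := by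
        rw [Complex.sub_im, le_abs]
        rw [not_and_or, not_lt, not_le] at h7
        rcases h7 with h7 | h7
        · left; linarith
        · right; linarith
      have h9 : δ / Real.log T ≤ 1 := by
        rw [div_le_one (by linarith)]
        linarith
      exact h9.trans (h8.trans (Complex.abs_im_le_norm _))
  · have h3 := pow_bounds (κ := 1 + κ) hL (norm_pos_iff.2 hne) hd
    exact h3

/-- the upper bound for the moments of the derivative -/
lemma upper_moment (k ε : ℝ) (hk : 0 < k) (hk2 : k < 2) (hε : 0 < ε) : ∃ T₀ : ℝ, ∀ T : ℝ, T₀ ≤ T →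
    ∑ᶠ s ∈ simple T (2 * T), ‖deriv riemannZeta s‖ ^ (2 * k) ≤ T * Real.log T ^ ((k + 1) ^ 2 + ε) := by
  classical
  have h := Pool.Agent.J6H67.LX.hUPB k (ε / 2) hk hk2 (by positivity)
  have t9 : Tendsto (fun T : ℝ => 9 / 10 * T) atTop atTop := tendsto_id.const_mul_atTop (by norm_num)
  have hpe : Tendsto (fun T : ℝ => Real.log T ^ (ε / 2)) atTop atTop :=
    (tendsto_rpow_atTop (by positivity)).comp Real.tendsto_log_atTop
  have h1 := h.and ((t9.eventually h).and ((hpe.eventually_ge_atTop 2).and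
    ((Real.tendsto_log_atTop.eventually_ge_atTop 1).and (eventually_ge_atTop (10:ℝ)))))
  obtain ⟨T₀, hT₀⟩ := eventually_atTop.1 h1
  refine ⟨T₀, fun T hT => ?_⟩
  obtain ⟨a1, a2, a3, hL, hT10⟩ := hT₀ T hT
  have hL0 : 0 < Real.log T := by linarith
  have hsf : (simple T (2 * T)).Finite := (zeros_finite T (2 * T) (by linarith)).subset fun s hs => hs.1
  rw [finsum_mem_eq_finite_toFinset_sum _ hsf]
  set S1 := (Zf riemannZeta T (2 * T)).filter (fun s => s.re = 1 / 2) with hS1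
  set S2 := (Zf riemannZeta (9 / 10 * T) (2 * (9 / 10 * T))).filter (fun s => s.re = 1 / 2) with hS2
  have hsub : hsf.toFinset ⊆ S1 ∪ S2 := by
    intro s hs
    rw [Set.Finite.mem_toFinset] at hs
    obtain ⟨⟨z1, z2, z3, z4, z5⟩, z6, -⟩ := hs
    rw [Finset.mem_union, hS1, hS2, Finset.mem_filter, Finset.mem_filter, mem_Z (by linarith), mem_Z (by linarith)]
    rcases lt_or_eq_of_le z4 with h5 | h5
    · exact Or.inl ⟨⟨z2, z3, h5, z5, z1⟩, z6⟩
    · exact Or.inr ⟨⟨z2, z3, by linarith, by linarith, z1⟩, z6⟩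
  have hnn : ∀ s : ℂ, 0 ≤ ‖deriv riemannZeta s‖ ^ (2 * k) := fun s => by positivity
  have h2 : ∑ s ∈ hsf.toFinset, ‖deriv riemannZeta s‖ ^ (2 * k) ≤
      ∑ s ∈ S1, ‖deriv riemannZeta s‖ ^ (2 * k) + ∑ s ∈ S2, ‖deriv riemannZeta s‖ ^ (2 * k) := by
    refine (Finset.sum_le_sum_of_subset_of_nonneg hsub fun s _ _ => hnn s).trans ?_
    rw [← Finset.sum_union_inter]
    exact le_add_of_nonneg_right (Finset.sum_nonneg fun s _ => hnn s)
  have h3 : 9 / 10 * T * Real.log (9 / 10 * T) ^ ((k + 1) ^ 2 + ε / 2) ≤ T * Real.log T ^ ((k + 1) ^ 2 + ε / 2) := by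
    have h4 : Real.log (9 / 10 * T) ≤ Real.log T := Real.log_le_log (by linarith) (by linarith)
    have h5 : 0 ≤ Real.log (9 / 10 * T) := Real.log_nonneg (by linarith)
    exact mul_le_mul (by linarith) (Real.rpow_le_rpow h5 h4 (by positivity)) (by positivity) (by linarith)
  calc ∑ s ∈ hsf.toFinset, ‖deriv riemannZeta s‖ ^ (2 * k)
      ≤ T * Real.log T ^ ((k + 1) ^ 2 + ε / 2) + T * Real.log T ^ ((k + 1) ^ 2 + ε / 2) := by linarith
    _ = T * (2 * Real.log T ^ ((k + 1) ^ 2 + ε / 2)) := by ring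
    _ ≤ T * (Real.log T ^ (ε / 2) * Real.log T ^ ((k + 1) ^ 2 + ε / 2)) := by gcongr
    _ = _ := by
      rw [← Real.rpow_add hL0]
      congr 2
      ring

/-- the upper bound for the number of zeros with a large derivative -/
lemma upper_count (h : ∀ k ε : ℝ, 0 < k → k < 2 → 0 < ε → ∃ T₀ : ℝ, ∀ T : ℝ, T₀ ≤ T →
      ∑ᶠ s ∈ simple T (2 * T), ‖deriv riemannZeta s‖ ^ (2 * k) ≤ T * Real.log T ^ ((k + 1) ^ 2 + ε))
    (κ ε : ℝ) (hκ : 0 < κ) (hκ2 : κ < 2) (hε : 0 < ε) : ∃ T₀ : ℝ, ∀ T : ℝ, T₀ ≤ T →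
      (({s : ℂ | s ∈ simple T (2 * T) ∧ Real.log T ^ (1 + κ) ≤ ‖deriv riemannZeta s‖}.ncard : ℕ) : ℝ) ≤
        T * Real.log T ^ (1 - κ ^ 2 + ε) := by
  classical
  obtain ⟨T₁, hT₁⟩ := h κ ε hκ hκ2 hε
  refine ⟨max T₁ 10, fun T hT => ?_⟩
  have hT10 : 10 ≤ T := (le_max_right _ _).trans hT
  have h1 := hT₁ T ((le_max_left _ _).trans hT)
  have hL0 : 0 < Real.log T := Real.log_pos (by linarith)
  have hsf : (simple T (2 * T)).Finite := (zeros_finite T (2 * T) (by linarith)).subset fun s hs => hs.1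
  rw [finsum_mem_eq_finite_toFinset_sum _ hsf] at h1
  have hgf : {s : ℂ | s ∈ simple T (2 * T) ∧ Real.log T ^ (1 + κ) ≤ ‖deriv riemannZeta s‖}.Finite :=
    hsf.subset fun s hs => hs.1
  rw [Set.ncard_eq_toFinset_card _ hgf]
  have hsub : hgf.toFinset ⊆ hsf.toFinset := by
    intro s hs
    rw [Set.Finite.mem_toFinset] at hs ⊢
    exact hs.1
  have h2 : (hgf.toFinset.card : ℝ) * (Real.log T ^ (1 + κ)) ^ (2 * κ) ≤ T * Real.log T ^ ((κ + 1) ^ 2 + ε) := by
    refine le_trans ?_ h1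
    refine le_trans ?_ (Finset.sum_le_sum_of_subset_of_nonneg hsub fun s _ _ => by positivity)
    rw [← nsmul_eq_mul]
    refine Finset.card_nsmul_le_sum _ _ _ fun s hs => ?_
    rw [Set.Finite.mem_toFinset] at hs
    exact Real.rpow_le_rpow (by positivity) hs.2 (by positivity)
  rw [← Real.rpow_mul hL0.le] at h2
  have hp : 0 < Real.log T ^ ((1 + κ) * (2 * κ)) := Real.rpow_pos_of_pos hL0 _
  rw [← le_div_iff₀ hp] at h2
  refine h2.trans (le_of_eq ?_)
  rw [mul_div_assoc, ← Real.rpow_sub hL0]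
  congr 2
  ring

/-- **Main theorem.** Write `c = cMT = 1.3274...`, so that `2 - c = 0.6725...`.

(1) For every real `κ`, at least `T (log T)^(-κ²-ε)` of the heights `t` in `[T, 2T]` have the following property:
`|ζ(1/2+it)| = (log T)^(κ ± ε)`, and among the zeros with ordinate in `[t - r, t + r]`, `r = (log T)^(-1+o(1))`,
at least the proportion `2 - c - ε` are simple, on the critical line, isolated at the scale of the mean spacing,
and satisfy `|ζ'(ρ)| = (log T)^(1 + κ ± ε)`; their number is at least `(2 - c - ε)` times the mean number of zeros.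

(2) For every real `κ` at least `T (log T)^(1-κ²-ε)` simple zeros on the critical line with ordinates in `[T, 2T]`
are isolated at the scale of the mean spacing and satisfy `|ζ'(ρ)| = (log T)^(1 + κ ± ε)`.

(3) For every real `k` (positive or negative) the sum of `|ζ'(ρ)|^(2k)` over the simple zeros on the critical line
with ordinates in `[T, 2T]` is at least `T (log T)^((k+1)²-ε)`.

(4) For `0 < k < 2` this sum is at most `T (log T)^((k+1)²+ε)`; here the multiple zeros would contribute `0`.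

(5) For `0 < κ < 2` at most `T (log T)^(1-κ²+ε)` simple zeros on the critical line with ordinates in `[T, 2T]`
satisfy `|ζ'(ρ)| ≥ (log T)^(1+κ)`. -/
theorem result :
    (∀ ε : ℝ, 0 < ε → ε ≤ 1 / 2 → ∃ δ : ℝ, 0 < δ ∧ ∀ κ : ℝ, ∃ e : ℝ, 0 < e ∧ ∃ T₀ : ℝ, ∀ T : ℝ, T₀ ≤ T →
      ∃ r : ℝ, ∃ E : Set ℝ, Real.log T ^ (e - 1) ≤ r ∧ r ≤ Real.log T ^ (ε - 1) ∧ MeasurableSet E ∧
        E ⊆ Set.Icc T (2 * T) ∧ T * Real.log T ^ (-κ ^ 2 - ε) ≤ volume.real E ∧ ∀ t ∈ E,
          Real.log T ^ (κ - ε) ≤ ‖riemannZeta (1 / 2 + t * I)‖ ∧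
          ‖riemannZeta (1 / 2 + t * I)‖ ≤ Real.log T ^ (κ + ε) ∧
          (2 - cMT - ε) * (r * Real.log T / Real.pi) ≤
            ((good κ ε (δ / Real.log T) T (t - r) (t + r)).ncard : ℝ) ∧
          (2 - cMT - ε) * (N (t - r) (t + r) : ℝ) ≤
            ((good κ ε (δ / Real.log T) T (t - r) (t + r)).ncard : ℝ)) ∧
    (∃ δ : ℝ, 0 < δ ∧ ∀ κ ε : ℝ, 0 < ε → ∃ T₀ : ℝ, ∀ T : ℝ, T₀ ≤ T →
      T * Real.log T ^ (1 - κ ^ 2 - ε) ≤ ((good κ ε (δ / Real.log T) T T (2 * T)).ncard : ℝ)) ∧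
    (∀ k ε : ℝ, 0 < ε → ∃ T₀ : ℝ, ∀ T : ℝ, T₀ ≤ T →
      T * Real.log T ^ ((k + 1) ^ 2 - ε) ≤ ∑ᶠ s ∈ simple T (2 * T), ‖deriv riemannZeta s‖ ^ (2 * k)) ∧
    (∀ k ε : ℝ, 0 < k → k < 2 → 0 < ε → ∃ T₀ : ℝ, ∀ T : ℝ, T₀ ≤ T →
      ∑ᶠ s ∈ simple T (2 * T), ‖deriv riemannZeta s‖ ^ (2 * k) ≤ T * Real.log T ^ ((k + 1) ^ 2 + ε)) ∧
    (∀ κ ε : ℝ, 0 < κ → κ < 2 → 0 < ε → ∃ T₀ : ℝ, ∀ T : ℝ, T₀ ≤ T →
      (({s : ℂ | s ∈ simple T (2 * T) ∧ Real.log T ^ (1 + κ) ≤ ‖deriv riemannZeta s‖}.ncard : ℕ) : ℝ) ≤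
        T * Real.log T ^ (1 - κ ^ 2 + ε)) := by
  classical
  have p4 := upper_moment
  have p2 : ∃ δ : ℝ, 0 < δ ∧ ∀ κ ε : ℝ, 0 < ε → ∃ T₀ : ℝ, ∀ T : ℝ, T₀ ≤ T →
      T * Real.log T ^ (1 - κ ^ 2 - ε) ≤ ((good κ ε (δ / Real.log T) T T (2 * T)).ncard : ℝ) := by
    obtain ⟨δ, hδ, hδ1, h⟩ := Pool.Agent.J6H67.LX.ld_main
    refine ⟨δ, hδ, fun κ ε hε => ?_⟩
    have h1 := (h κ ε hε).and ((Real.tendsto_log_atTop.eventually_gt_atTop 1).and (eventually_ge_atTop (10:ℝ)))
    obtain ⟨T₀, hT₀⟩ := eventually_atTop.1 h1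
    refine ⟨T₀, fun T hT => ?_⟩
    obtain ⟨⟨U1, U2, a1, a2, a3, a4, a5⟩, hL, hT10⟩ := hT₀ T hT
    refine a5.trans ?_
    have hfin : (good κ ε (δ / Real.log T) T T (2 * T)).Finite :=
      (zeros_finite T (2 * T) (by linarith)).subset fun s hs => hs.1.1
    set F := (isoS U1 U2 (δ / Real.log T)).filter (fun s => T + 2 ≤ s.im ∧ s.im ≤ 2 * T - 2 ∧
        |Real.log ‖deriv riemannZeta s‖ - (1 + κ) * LL T| ≤ ε * LL T) with hF
    have hsub : (↑F : Set ℂ) ⊆ good κ ε (δ / Real.log T) T T (2 * T) := by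
      intro s hs
      rw [Finset.mem_coe, hF, Finset.mem_filter] at hs
      exact good_of_iso hT10 hL hδ1 a1 a2 a3 hs.1 hs.2.1 hs.2.2.1 (by linarith [hs.2.1]) (by linarith [hs.2.2.1])
        hs.2.2.2
    have hc := Set.ncard_le_ncard hsub hfin
    rw [Set.ncard_coe_finset] at hc
    exact_mod_cast hc
  refine ⟨?_, p2, ?_, p4, upper_count p4⟩
  · intro ε hε hε2
    obtain ⟨δ, hδ, hδ1, h⟩ := Pool.Agent.J6H67.LX.ew_main ε hε hε2
    refine ⟨δ, hδ, fun κ => ?_⟩
    obtain ⟨e, he, h2⟩ := h κ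
    refine ⟨e, he, ?_⟩
    have hlog := Real.isLittleO_log_id_atTop.bound (show (0:ℝ) < 1 / 100 by norm_num)
    have h3 := h2.and ((Real.tendsto_log_atTop.eventually_gt_atTop 2).and
      ((eventually_ge_atTop (100:ℝ)).and hlog))
    obtain ⟨T₀, hT₀⟩ := eventually_atTop.1 h3
    refine ⟨T₀, fun T hT => ?_⟩
    obtain ⟨⟨U1, U2, r, E, a1, a2, a3, a4, b1, b2, b3, b4, b5, b6⟩, hL, hT10, hlT⟩ := hT₀ T hT
    have hL0 : 0 < Real.log T := by linarith
    have hLT : Real.log T ≤ T / 100 := by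
      simp only [id, Real.norm_eq_abs] at hlT
      rw [abs_of_pos hL0, abs_of_pos (by linarith)] at hlT
      linarith
    have hr0 : 0 < r := (Real.rpow_pos_of_pos hL0 _).trans_le b1
    have hr1 : r ≤ 1 := b2.trans (Real.rpow_le_one_of_one_le_of_nonpos (by linarith) (by linarith))
    set Zr : Set ℝ := {t : ℝ | riemannZeta (1 / 2 + t * I) = 0} with hZr
    have hZc : Zr.Countable := by
      have h5 : Zr = (fun t : ℝ => (1 / 2 + t * I : ℂ)) ⁻¹' {s : ℂ | riemannZeta s = 0 ∧ s.re = 1 / 2} := by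
        ext t
        simp [hZr]
      rw [h5]
      refine Set.Countable.preimage_of_injOn ?_ ?_
      · exact Pool.Agent.J6H67.LX.zeros_countable.mono fun s hs => hs.1
      · intro x _ y _ hxy
        have := congrArg Complex.im hxy
        simpa using this
    have hZ0 : volume Zr = 0 := hZc.measure_zero _
    refine ⟨r, E \ Zr, b1, b2, b3.diff hZc.measurableSet, ?_, ?_, ?_⟩
    · intro t ht
      have := b4 ht.1
      exact ⟨by linarith [this.1], by linarith [this.2]⟩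
    · rw [measureReal_def, measure_sdiff_null hZ0, ← measureReal_def]
      exact b5
    · rintro t ⟨htE, htZ⟩
      obtain ⟨c1, c2, c3⟩ := b6 t htE
      have htI := b4 htE
      have hz : 0 < ‖riemannZeta (1 / 2 + t * I)‖ := norm_pos_iff.2 htZ
      have hv := pow_bounds (L := Real.log T) (by linarith) hz c1
      set F := ((isoS U1 U2 (δ / Real.log T)).filter (fun s =>
          |Real.log ‖deriv riemannZeta s‖ - (1 + κ) * LL T| ≤ ε * LL T)).filter
            (fun s => |s.im - t| ≤ r) with hF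
      have hcard : (F.card : ℝ) ≤ ((good κ ε (δ / Real.log T) T (t - r) (t + r)).ncard : ℝ) := by
        have hfin : (good κ ε (δ / Real.log T) T (t - r) (t + r)).Finite :=
          (zeros_finite (t - r) (t + r) (by linarith [htI.1])).subset fun s hs => hs.1.1
        have hsub : (↑F : Set ℂ) ⊆ good κ ε (δ / Real.log T) T (t - r) (t + r) := by
          intro s hs
          rw [Finset.mem_coe, hF, Finset.mem_filter, Finset.mem_filter] at hs
          obtain ⟨⟨d1, d2⟩, d3⟩ := hs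
          rw [abs_le] at d3
          exact good_of_iso (by linarith) (by linarith) hδ1 a1 a2 a3 d1 (by linarith [htI.1, d3.1])
            (by linarith [htI.2, d3.2]) (by linarith [d3.1]) (by linarith [d3.2]) d2
        have hc := Set.ncard_le_ncard hsub hfin
        rw [Set.ncard_coe_finset] at hc
        exact_mod_cast hc
      have hN : (N (t - r) (t + r) : ℝ) = nz U1 U2 (t - r) (t + r) :=
        N_eq (by linarith) (by linarith [htI.1]) (by linarith [htI.2])
      have hcM : cMT = cMTinv := rfl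
      rw [hcM]
      refine ⟨hv.1, hv.2, c2.trans hcard, ?_⟩
      rw [hN]
      have hcM1 : cMTinv < 3 / 2 := cMTinv_lt
      have hcM2 : 1 < cMTinv := cMTinv_gt_one
      refine le_trans ?_ hcard
      have hX : 0 ≤ r * Real.log T / Real.pi := by positivity
      by_cases hp : 0 ≤ 2 - cMTinv - ε
      · have h4 : (2 - cMTinv - ε) * nz U1 U2 (t - r) (t + r) ≤
            (2 - cMTinv - ε) * ((F.card : ℝ) + (1 - (2 - cMTinv - ε)) * (r * Real.log T / Real.pi)) :=
          mul_le_mul_of_nonneg_left c3 hp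
        have h5 : (1 - (2 - cMTinv - ε)) * ((2 - cMTinv - ε) * (r * Real.log T / Real.pi)) ≤
            (1 - (2 - cMTinv - ε)) * (F.card : ℝ) := mul_le_mul_of_nonneg_left c2 (by linarith)
        nlinarith
      · push Not at hp
        have h4 : 0 ≤ nz U1 U2 (t - r) (t + r) := by
          rw [← hN]; positivity
        have h5 : (0:ℝ) ≤ (F.card : ℝ) := by positivity
        nlinarith
  · intro k ε hε
    obtain ⟨δ, hδ, h⟩ := p2
    set ε' : ℝ := ε / (1 + 2 * |k|) with hε'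
    have hk : 0 ≤ |k| := abs_nonneg k
    have hε'0 : 0 < ε' := by positivity
    obtain ⟨T₀, hT₀⟩ := h k ε' hε'0
    have h1 := (eventually_ge_atTop T₀).and ((Real.tendsto_log_atTop.eventually_gt_atTop 1).and
      (eventually_ge_atTop (10:ℝ)))
    obtain ⟨T₁, hT₁⟩ := eventually_atTop.1 h1
    refine ⟨T₁, fun T hT => ?_⟩
    obtain ⟨hT1, hL, hT10⟩ := hT₁ T hT
    have h2 := hT₀ T hT1
    set L := Real.log T with hLd
    have hL0 : 0 < L := by linarith
    have hsf : (simple T (2 * T)).Finite := (zeros_finite T (2 * T) (by linarith)).subset fun s hs => hs.1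
    have hgf : (good k ε' (δ / L) T T (2 * T)).Finite := hsf.subset fun s hs => hs.1
    rw [finsum_mem_eq_finite_toFinset_sum _ hsf]
    have hsub : hgf.toFinset ⊆ hsf.toFinset := by
      intro s hs
      rw [Set.Finite.mem_toFinset] at hs ⊢
      exact hs.1
    refine le_trans ?_ (Finset.sum_le_sum_of_subset_of_nonneg hsub fun s _ _ => by positivity)
    have hterm : ∀ s ∈ hgf.toFinset, L ^ (2 * k * (1 + k) - 2 * |k| * ε') ≤ ‖deriv riemannZeta s‖ ^ (2 * k) := by
      intro s hs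
      rw [Set.Finite.mem_toFinset] at hs
      obtain ⟨-, -, h3, h4⟩ := hs
      have hpos : 0 < ‖deriv riemannZeta s‖ := (Real.rpow_pos_of_pos hL0 _).trans_le h3
      rw [← Real.log_le_log_iff (by positivity) (by positivity), Real.log_rpow hL0, Real.log_rpow hpos]
      have h5 : (1 + k - ε') * Real.log L ≤ Real.log ‖deriv riemannZeta s‖ := by
        rw [← Real.log_rpow hL0]
        exact Real.log_le_log (by positivity) h3
      have h6 : Real.log ‖deriv riemannZeta s‖ ≤ (1 + k + ε') * Real.log L := by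
        rw [← Real.log_rpow hL0]
        exact Real.log_le_log hpos h4
      have hLL : 0 < Real.log L := Real.log_pos hL
      rcases le_or_gt 0 k with h7 | h7
      · rw [abs_of_nonneg h7]
        nlinarith
      · rw [abs_of_neg h7]
        nlinarith
    have h3 := Finset.sum_le_sum hterm
    rw [Finset.sum_const, nsmul_eq_mul] at h3
    refine le_trans ?_ h3
    rw [Set.ncard_eq_toFinset_card _ hgf] at h2
    calc T * L ^ ((k + 1) ^ 2 - ε) = T * L ^ (1 - k ^ 2 - ε') * L ^ (2 * k * (1 + k) - 2 * |k| * ε') := by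
          rw [mul_assoc, ← Real.rpow_add hL0]
          congr 2
          rw [hε']
          field_simp
          ring
      _ ≤ _ := mul_le_mul_of_nonneg_right h2 (by positivity)

end Pool.Agent.Results.MP_f259ea_nt.ExceptionalValues
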