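import Pool.Agent.J6H88.IZ.Fin
import Pool.Agent.J6H88.IZ.Tau
import Pool.Agent.J6H88.DZ.Uni

/-!
# Isolated simple zeros of Dirichlet L-functions: uniformity in the conductor and families

A simple zero on the critical line is isolated with the distance `d` if its distance from ALL other
zeros of the same L-function in the open critical strip, on or off the line, is at least `d`.

1. For all `τ, ε > 0` there is `C` such that for every primitive character `χ` modulo any `q` and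
   every `T ≥ max(C, q ^ τ)` at least the proportion `2 - c(τ/(1+τ)) - 74 δ² - ε` of the zeros of
   `L(s, χ)` with ordinate in `(T, 2T]` are simple, on the critical line and isolated with the
   distance `δ / log(qT)`, for all `0 < δ ≤ 1/10`. No constant depends on `q` or `χ`.
2. The same on average over all the characters modulo `q`, with `2 - c(1) - 74 δ² - ε`, for all
   `T ≥ C (1 + √log q)`.
3. Over all primitive characters of conductor in `(X, Y]`, with the weight `1/q²`, the proportion is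
   at least `0.9322 - 296 δ²` for `(log X)² ≤ T ≤ X ^ η`, with the distance `δ / log X`.
4. For the heights `4 (log X)² ≤ T ≤ X ^ τ` it is at least `2 - c((2+τ)/(1+τ)) - 296 δ² - ε`, with the
   distance `δ / log(XT)`.

Here `c(h) = h/2 + cot(h/√2)/√2`. For the proof the trace inequality for clusters of zeros of the
starting library (`TH803.CL`, one fixed L-function, sharp windows) is proved for the kernels which are
smoothed with the Gaussian cut-off of the starting module `H385R2` (`Pool/Agent/J6H88/IZ`).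
-/

open Complex

set_option autoImplicit false

namespace Pool.Agent.Results.MP_f259ea_nt.IsolatedZerosUniform

/-- The Dirichlet L-function of a character modulo `q` (the value for `q = 0` is never used). -/
noncomputable def Lfun (q : ℕ) (χ : DirichletCharacter ℂ q) : ℂ → ℂ :=
  if h : q = 0 then 0 else
    haveI : NeZero q := ⟨h⟩
    DirichletCharacter.LFunction χ

/-- The zeros of `F` in the open critical strip with ordinate in `(T₁, T₂]`. -/
def zeros (F : ℂ → ℂ) (T₁ T₂ : ℝ) : Set ℂ :=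
  {s : ℂ | 0 < s.re ∧ s.re < 1 ∧ T₁ < s.im ∧ s.im ≤ T₂ ∧ F s = 0}

/-- The number of these zeros, counted with multiplicity. -/
noncomputable def N (F : ℂ → ℂ) (T₁ T₂ : ℝ) : ℕ := ∑ᶠ s ∈ zeros F T₁ T₂, analyticOrderNatAt F s

/-- The simple zeros on the critical line with ordinate in `(T₁, T₂]` which have distance at least
`d` from all the other zeros of `F` in the open critical strip (of any ordinate). -/
def isolated (F : ℂ → ℂ) (T₁ T₂ d : ℝ) : Set ℂ :=
  {s : ℂ | s ∈ zeros F T₁ T₂ ∧ s.re = 1 / 2 ∧ analyticOrderNatAt F s = 1 ∧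
    ∀ s' : ℂ, F s' = 0 → 0 < s'.re → s'.re < 1 → s' ≠ s → d ≤ ‖s - s'‖}

/-- The sum of `f q χ / q²` over all primitive Dirichlet characters `χ` of conductor `q`,
`X < q ≤ Y`. -/
noncomputable def fam (X Y : ℕ) (f : (q : ℕ) → DirichletCharacter ℂ q → ℕ) : ℝ :=
  ∑ q ∈ Finset.Ioc X Y, (1 / (q : ℝ) ^ 2) *
    ∑ᶠ χ : {χ : DirichletCharacter ℂ q // χ.IsPrimitive}, (f q χ : ℝ)

/-- The function of Montgomery and Taylor. -/
noncomputable def c (h : ℝ) : ℝ := h / 2 + Real.cot (h / Real.sqrt 2) / Real.sqrt 2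

/-- **Isolated simple zeros, uniformly in the conductor and in families.** -/
theorem result :
    -- all the sets of zeros are finite
    (∀ (q : ℕ) (χ : DirichletCharacter ℂ q) (T₁ T₂ : ℝ), 1 ≤ q → 1 ≤ T₁ →
      (zeros (Lfun q χ) T₁ T₂).Finite) ∧
    -- (1) every primitive character
    (∀ τ ε : ℝ, 0 < τ → 0 < ε → ∃ C : ℝ, 1 ≤ C ∧ ∀ (q : ℕ) (χ : DirichletCharacter ℂ q) (T δ : ℝ),
      1 ≤ q → χ.IsPrimitive → C ≤ T → (q : ℝ) ^ τ ≤ T → 0 < δ → δ ≤ 1 / 10 →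
      (2 - c (τ / (1 + τ)) - 74 * δ ^ 2 - ε) * (N (Lfun q χ) T (2 * T) : ℝ) ≤
        ((isolated (Lfun q χ) T (2 * T) (δ / Real.log (q * T))).ncard : ℝ)) ∧
    -- (2) all characters modulo `q`
    (∀ ε : ℝ, 0 < ε → ∃ C : ℝ, 1 ≤ C ∧ ∀ (q : ℕ) (T δ : ℝ), 1 ≤ q →
      C * (1 + Real.sqrt (Real.log q)) ≤ T → 0 < δ → δ ≤ 1 / 10 →
      (2 - c 1 - 74 * δ ^ 2 - ε) *
        ∑ᶠ χ : DirichletCharacter ℂ q, (N (Lfun q χ) T (2 * T) : ℝ) ≤
        ∑ᶠ χ : DirichletCharacter ℂ q,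
          ((isolated (Lfun q χ) T (2 * T) (δ / Real.log (q * T))).ncard : ℝ)) ∧
    -- (3) all primitive characters of conductor in `(X, Y]`, low heights
    (∃ K η X0 : ℝ, 1 ≤ K ∧ 0 < η ∧ 1 ≤ X0 ∧ ∀ (X Y : ℕ) (T δ : ℝ), X0 ≤ X → K * X ≤ Y →
      (Y : ℝ) ≤ (X : ℝ) ^ (1 + η) → (Real.log X) ^ 2 ≤ T → T ≤ (X : ℝ) ^ η → 0 < δ → δ ≤ 1 / 20 →
      (0.9322 - 296 * δ ^ 2) * fam X Y (fun q χ => N (Lfun q χ) T (2 * T)) ≤
        fam X Y (fun q χ => (isolated (Lfun q χ) T (2 * T) (δ / Real.log X)).ncard)) ∧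
    -- (4) the same family, heights up to a power of the conductor
    (∀ τ ε : ℝ, 0 ≤ τ → 0 < ε → ∃ K η X0 : ℝ, 1 ≤ K ∧ 0 < η ∧ 1 ≤ X0 ∧
      ∀ (X Y : ℕ) (T δ : ℝ), X0 ≤ X → K * X ≤ Y → (Y : ℝ) ≤ (X : ℝ) ^ (1 + η) →
      4 * (Real.log X) ^ 2 ≤ T → T ≤ (X : ℝ) ^ τ → 0 < δ → δ ≤ 1 / 20 →
      (2 - c ((2 + τ) / (1 + τ)) - 296 * δ ^ 2 - ε) *
          fam X Y (fun q χ => N (Lfun q χ) T (2 * T)) ≤
        fam X Y (fun q χ => (isolated (Lfun q χ) T (2 * T) (δ / Real.log (X * T))).ncard)) ∧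
    -- the constants
    (∀ a b : ℝ, 0 < a → a ≤ b → b ≤ 2 → c b ≤ c a) ∧ c 1 ≤ 1.327503 ∧
    ∀ h : ℝ, 0 < h → h ≤ 1 → c h ≤ 1 / h + h / 3 := by
  have hL : ∀ (q : ℕ) [NeZero q] (χ : DirichletCharacter ℂ q),
      Lfun q χ = DirichletCharacter.LFunction χ := by
    intro q _ χ
    unfold Lfun
    rw [dif_neg (NeZero.ne q)]
  refine ⟨?_, ?_, ?_, ?_, ?_, fun a b h1 h2 h3 => Pool.Agent.N880.HD.cH_anti h1 h2 h3,
    Pool.Agent.N880.HD.cH_le le_rfl one_le_two, fun h h0 h1 => H295SI.cc_le h h0 h1⟩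
  · intro q χ T₁ T₂ hq hT
    have hq0 : NeZero q := ⟨by omega⟩
    rw [hL]
    exact Pool.Agent.TH243.CYC.finite_zset χ T₁ T₂ hT
  · intro τ ε hτ hε
    have h0 : 0 < τ / (1 + τ) := by positivity
    have h1 : τ / (1 + τ) ≤ 1 := by rw [div_le_one (by linarith)]; linarith
    obtain ⟨C, hC, H⟩ := Pool.Agent.J6H88.IZ.single_iso _ ε h0 h1 hε
    refine ⟨C, hC, fun q χ T δ hq hχ hT hqT hδ hδ1 => ?_⟩
    have hq0 : NeZero q := ⟨by omega⟩
    rw [hL]
    exact H q χ T hχ hT (Pool.Agent.J6H88.DZ.height_pow hτ (hC.trans hT) hqT) δ hδ hδ1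
  · intro ε hε
    obtain ⟨C, hC, H⟩ := Pool.Agent.J6H88.IZ.all_iso ε hε
    refine ⟨C, hC, fun q T δ hq hT hδ hδ1 => ?_⟩
    have hq0 : NeZero q := ⟨by omega⟩
    rw [finsum_eq_sum_of_fintype, finsum_eq_sum_of_fintype]
    simp only [hL]
    exact H q T hT δ hδ hδ1
  · obtain ⟨K, η, X0, hK, hη, hX0, H⟩ := Pool.Agent.J6H88.IZ.low_iso
    refine ⟨K, η, X0, hK, hη, hX0, fun X Y T δ a1 a2 a3 a4 a5 hδ hδ1 => ?_⟩
    have h := H X Y T a1 a2 a3 a4 a5 (2 * δ) (by linarith) (by linarith)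
    have e1 : (0.9322 : ℝ) - 296 * δ ^ 2 = 0.9322 - 74 * (2 * δ) ^ 2 := by ring
    have e2 : δ / Real.log X = 2 * δ / (2 * Real.log X) := by
      rw [mul_div_mul_left _ _ (two_ne_zero)]
    rw [e1, e2]
    exact h
  · intro τ ε hτ hε
    obtain ⟨K, η, X0, hK, hη, hX0, H⟩ := Pool.Agent.J6H88.IZ.tau_iso τ ε hτ hε
    refine ⟨K, η, X0, hK, hη, hX0, fun X Y T δ a1 a2 a3 a4 a5 hδ hδ1 => ?_⟩
    have h := H X Y T a1 a2 a3 a4 a5 (2 * δ) (by linarith) (by linarith)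
    have e1 : 2 - c ((2 + τ) / (1 + τ)) - 296 * δ ^ 2 - ε =
        2 - c ((2 + τ) / (1 + τ)) - 74 * (2 * δ) ^ 2 - ε := by ring
    have e2 : δ / Real.log (X * T) = 2 * δ / (2 * Real.log (X * T)) := by
      rw [mul_div_mul_left _ _ (two_ne_zero)]
    rw [e1, e2]
    exact h

end Pool.Agent.Results.MP_f259ea_nt.IsolatedZerosUniform
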