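import Pool.Agent.J6H88.DZ.Runs

/-!
# Long runs of consecutive distinct zeros of Dirichlet L-functions

All primitive Dirichlet characters `χ` of conductor `q`, `X < q ≤ Y`, are counted with the weight
`1/q²`.  For the heights `(log X)² ≤ T ≤ X ^ η` at least the proportion
`0.9322 - 0.0339 m - m/A - ε` of the zeros of the `L(s, χ)` with ordinate in `(T, 2T]` starts a run of
`m + 1` consecutive ordinates at all of which there is a simple zero on the critical line, the run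
having a length of at most `A` mean gaps of the zeros of this `L(s, χ)`.  So there are runs of `28`
zeros.  With `0.0339 (m + 1)` instead of `0.0339 m` there is no other zero at all with ordinate in the
range of the run: `27` consecutive zeros which are simple and on the line.  For all the heights up to
any fixed power of the conductor, and for one character in short intervals, the same is proved with
other constants.
-/

open Complex

set_option autoImplicit false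

namespace Pool.Agent.Results.MP_f259ea_nt.RunsOfZeros

/-- The Dirichlet L-function of a character modulo `q` (the value for `q = 0` is never used). -/
noncomputable def Lfun (q : ℕ) (χ : DirichletCharacter ℂ q) : ℂ → ℂ :=
  if h : q = 0 then 0 else
    haveI : NeZero q := ⟨h⟩
    DirichletCharacter.LFunction χ

/-- The zeros of `F` in the open critical strip with ordinate in `(T₁, T₂]`. -/
def zeros (F : ℂ → ℂ) (T₁ T₂ : ℝ) : Set ℂ :=
  {s : ℂ | 0 < s.re ∧ s.re < 1 ∧ T₁ < s.im ∧ s.im ≤ T₂ ∧ F s = 0}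

/-- The number of these zeros, counted with multiplicity. -/
noncomputable def N (F : ℂ → ℂ) (T₁ T₂ : ℝ) : ℕ := ∑ᶠ s ∈ zeros F T₁ T₂, analyticOrderNatAt F s

/-- The points `t` which are the first of `m + 1` consecutive ordinates `t = u 0 < u 1 < ... < u m` in
`(T₁, T₂]` of zeros of `F` in the strip, with a simple zero of `F` at each of the `1/2 + i u j`, and
with `u m - u 0 ≤ L`. -/
def runs (F : ℂ → ℂ) (m : ℕ) (L T₁ T₂ : ℝ) : Set ℝ :=
  {t : ℝ | ∃ u : Fin (m + 1) → ℝ, StrictMono u ∧ u 0 = t ∧ T₁ < u 0 ∧ u (Fin.last m) ≤ T₂ ∧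
    (∀ j, F (1 / 2 + I * u j) = 0 ∧ analyticOrderNatAt F (1 / 2 + I * u j) = 1) ∧
    (∀ s : ℂ, F s = 0 → 0 < s.re → s.re < 1 → u 0 ≤ s.im → s.im ≤ u (Fin.last m) →
      ∃ j, s.im = u j) ∧ u (Fin.last m) - u 0 ≤ L}

/-- The same, and the `1/2 + i u j` are the only zeros of `F` in the strip, on or off the critical
line, with ordinate in `[u 0, u m]`. -/
def pureRuns (F : ℂ → ℂ) (m : ℕ) (L T₁ T₂ : ℝ) : Set ℝ :=
  {t : ℝ | ∃ u : Fin (m + 1) → ℝ, StrictMono u ∧ u 0 = t ∧ T₁ < u 0 ∧ u (Fin.last m) ≤ T₂ ∧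
    (∀ j, F (1 / 2 + I * u j) = 0 ∧ analyticOrderNatAt F (1 / 2 + I * u j) = 1) ∧
    (∀ s : ℂ, F s = 0 → 0 < s.re → s.re < 1 → u 0 ≤ s.im → s.im ≤ u (Fin.last m) →
      ∃ j, s = 1 / 2 + I * u j) ∧ u (Fin.last m) - u 0 ≤ L}

/-- The sum of `f q χ / q²` over all primitive Dirichlet characters `χ` of conductor `q`,
`X < q ≤ Y`. -/
noncomputable def fam (X Y : ℕ) (f : (q : ℕ) → DirichletCharacter ℂ q → ℕ) : ℝ :=
  ∑ q ∈ Finset.Ioc X Y, (1 / (q : ℝ) ^ 2) *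
    ∑ᶠ χ : {χ : DirichletCharacter ℂ q // χ.IsPrimitive}, (f q χ : ℝ)

/-- The function of Montgomery and Taylor. -/
noncomputable def c (h : ℝ) : ℝ := h / 2 + Real.cot (h / Real.sqrt 2) / Real.sqrt 2

/-- The two lower bounds in the family, with the proportion `κ` of simple zeros. -/
def FamBound (κ ε : ℝ) (m : ℕ) (X Y : ℕ) (T A : ℝ) : Prop :=
  (κ - m * ((1 - κ) / 2) - m / A - ε) * fam X Y (fun q χ => N (Lfun q χ) T (2 * T)) ≤
    fam X Y (fun q χ =>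
      (runs (Lfun q χ) m (A * T / N (Lfun q χ) T (2 * T)) T (2 * T)).ncard) ∧
  (κ - (m + 1) * ((1 - κ) / 2) - m / A - ε) * fam X Y (fun q χ => N (Lfun q χ) T (2 * T)) ≤
    fam X Y (fun q χ =>
      (pureRuns (Lfun q χ) m (A * T / N (Lfun q χ) T (2 * T)) T (2 * T)).ncard)

/-- **Main theorem.** -/
theorem result :
    (∃ K η : ℝ, 1 ≤ K ∧ 0 < η ∧ ∀ (m : ℕ) (ε : ℝ), 0 < ε → ∃ X0 : ℝ, 1 ≤ X0 ∧
      ∀ (X Y : ℕ) (T : ℝ), X0 ≤ X → K * X ≤ Y → (Y : ℝ) ≤ (X : ℝ) ^ (1 + η) →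
        (Real.log X) ^ 2 ≤ T → T ≤ (X : ℝ) ^ η → ∀ A : ℝ, 0 < A → FamBound 0.9322 ε m X Y T A) ∧
    (∀ (τ : ℝ) (m : ℕ) (ε : ℝ), 0 ≤ τ → 0 < ε → ∃ K η X0 : ℝ, 1 ≤ K ∧ 0 < η ∧ 1 ≤ X0 ∧
      ∀ (X Y : ℕ) (T : ℝ), X0 ≤ X → K * X ≤ Y → (Y : ℝ) ≤ (X : ℝ) ^ (1 + η) →
        4 * (Real.log X) ^ 2 ≤ T → T ≤ (X : ℝ) ^ τ → ∀ A : ℝ, 0 < A →
        FamBound (2 - c ((2 + τ) / (1 + τ))) ε m X Y T A) ∧
    (∀ (q : ℕ) (χ : DirichletCharacter ℂ q), 1 < q → χ.IsPrimitive →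
      (∀ T₁ T₂ : ℝ, 0 < T₁ → (zeros (Lfun q χ) T₁ T₂).Finite) ∧
      ∀ (h : ℝ) (m : ℕ) (ε : ℝ), 0 < h → h ≤ 1 → 0 < ε → ∃ T0 : ℝ, 1 ≤ T0 ∧
      ∀ T : ℝ, T0 ≤ T → ∀ H : ℝ, T ^ h ≤ H → H ≤ T → ∀ A : ℝ, 0 < A →
      (2 - c h - m * ((c h - 1) / 2) - m / A - ε) * (N (Lfun q χ) T (T + H) : ℝ) ≤
        ((runs (Lfun q χ) m (A * H / N (Lfun q χ) T (T + H)) T (T + H)).ncard : ℝ) ∧
      (2 - c h - (m + 1) * ((c h - 1) / 2) - m / A - ε) * (N (Lfun q χ) T (T + H) : ℝ) ≤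
        ((pureRuns (Lfun q χ) m (A * H / N (Lfun q χ) T (T + H)) T (T + H)).ncard : ℝ)) ∧
    (∀ a b : ℝ, 0 < a → a ≤ b → b ≤ 2 → c b ≤ c a) ∧ c 1 ≤ 1.327503 := by
  refine ⟨?_, ?_, ?_, fun a b h1 h2 h3 => Pool.Agent.N880.HD.cH_anti h1 h2 h3,
    Pool.Agent.N880.HD.cH_le le_rfl one_le_two⟩
  · obtain ⟨K, η, hK, hη, H⟩ := Pool.Agent.R321.RA.fam_runs
    refine ⟨K, η, hK, hη, fun m ε hε => ?_⟩
    obtain ⟨X0, hX0, h⟩ := H m ε hε
    refine ⟨X0, hX0, fun X Y T a1 a2 a3 a4 a5 A hA => ?_⟩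
    obtain ⟨r1, r2⟩ := h X Y T a1 a2 a3 a4 a5 A hA
    have e : ((1 : ℝ) - 0.9322) / 2 = 0.0339 := by norm_num
    unfold FamBound
    rw [e, mul_comm (m : ℝ) 0.0339, mul_comm ((m : ℝ) + 1) 0.0339]
    exact ⟨r1, r2⟩
  · intro τ m ε hτ hε
    obtain ⟨K, η, X0, hK, hη, hX0, h⟩ := Pool.Agent.J6H88.DZ.fam_runs2 τ hτ m hε
    refine ⟨K, η, X0, hK, hη, hX0, fun X Y T a1 a2 a3 a4 a5 A hA => ?_⟩
    obtain ⟨r1, r2⟩ := h X Y T a1 a2 a3 a4 a5 A hA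
    unfold FamBound
    have e : ((1 : ℝ) - (2 - c ((2 + τ) / (1 + τ)))) / 2 = (c ((2 + τ) / (1 + τ)) - 1) / 2 := by ring
    rw [e]
    exact ⟨r1, r2⟩
  · intro q χ hq hχ
    have hq0 : NeZero q := ⟨by omega⟩
    have hg : H370.GoodL (Lfun q χ) := by
      have e : Lfun q χ = DirichletCharacter.LFunction χ := H385.LF_eq q χ
      rw [e]
      exact H370.good_dirichlet χ hχ
    refine ⟨fun T₁ T₂ h => H370.zset_finite' hg T₁ T₂ h, fun h m ε h0 h1 hε => ?_⟩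
    exact Pool.Agent.TH299.RunsL.runs_short hg h0 h1 m hε

end Pool.Agent.Results.MP_f259ea_nt.RunsOfZeros
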