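import Pool.Agent.J6H88.DZ.Uni

/-!
# Distinct zeros of every primitive Dirichlet L-function, uniformly in the conductor

For every `τ > 0` there is a constant `C` such that for *every* primitive Dirichlet character `χ` of
*every* conductor `q` and for all `T ≥ max (C, q ^ τ)` a positive proportion of the zeros of `L(s, χ)`
in `(T, 2T]` are distinct.  The proportion is `(2 j + 1 - c(h)) / (j (j + 1)) - ε`, for each `j ≥ 1`,
with `h = τ / (1 + τ)` and `c(h) = h/2 + cot(h/√2)/√2 ≤ 1/h + h/3`; for `τ → ∞` and `j = 1` this is the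
proportion `(3 - c(1))/2` of Montgomery and Taylor.  No average over characters is taken.
-/

open Complex

set_option autoImplicit false

namespace Pool.Agent.Results.MP_f259ea_nt.UniformInConductor

/-- The nontrivial zeros of `L(s, χ)` with ordinate in `(T₁, T₂]`. -/
def zeros {q : ℕ} [NeZero q] (χ : DirichletCharacter ℂ q) (T₁ T₂ : ℝ) : Set ℂ :=
  {s : ℂ | 0 < s.re ∧ s.re < 1 ∧ T₁ < s.im ∧ s.im ≤ T₂ ∧ DirichletCharacter.LFunction χ s = 0}

/-- Their number, counted with multiplicity. -/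
noncomputable def N {q : ℕ} [NeZero q] (χ : DirichletCharacter ℂ q) (T₁ T₂ : ℝ) : ℕ :=
  ∑ᶠ s ∈ zeros χ T₁ T₂, analyticOrderNatAt (DirichletCharacter.LFunction χ) s

/-- The number of the distinct ones. -/
noncomputable def Nd {q : ℕ} [NeZero q] (χ : DirichletCharacter ℂ q) (T₁ T₂ : ℝ) : ℕ :=
  (zeros χ T₁ T₂).ncard

/-- The number of those that are simple and on the critical line. -/
noncomputable def Ns {q : ℕ} [NeZero q] (χ : DirichletCharacter ℂ q) (T₁ T₂ : ℝ) : ℕ :=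
  {s : ℂ | s ∈ zeros χ T₁ T₂ ∧ s.re = 1 / 2 ∧
    analyticOrderNatAt (DirichletCharacter.LFunction χ) s = 1}.ncard

/-- The function of Montgomery and Taylor. -/
noncomputable def c (h : ℝ) : ℝ := h / 2 + Real.cot (h / Real.sqrt 2) / Real.sqrt 2

/-- **Main theorem.**  The constant `C` does not depend on the character and its conductor. -/
theorem result :
    (∀ τ ε : ℝ, 0 < τ → 0 < ε → ∃ C : ℝ, ∀ (q : ℕ) [NeZero q] (χ : DirichletCharacter ℂ q) (T : ℝ),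
      χ.IsPrimitive → C ≤ T → (q : ℝ) ^ τ ≤ T →
      (zeros χ T (2 * T)).Finite ∧
      -- the number of zeros
      (1 - ε) * (T / (2 * Real.pi) * Real.log (q * T)) ≤ (N χ T (2 * T) : ℝ) ∧
      -- distinct zeros
      (3 * τ * (1 + τ) / (3 * (1 + τ) ^ 2 + τ ^ 2) - ε) * (N χ T (2 * T) : ℝ) ≤
        (Nd χ T (2 * T) : ℝ) ∧
      -- simple zeros on the critical line
      (2 - c (τ / (1 + τ)) - ε) * (N χ T (2 * T) : ℝ) ≤ (Ns χ T (2 * T) : ℝ)) ∧
    (∀ (j : ℕ) (τ ε : ℝ), 1 ≤ j → 0 < τ → 0 < ε →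
      ∃ C : ℝ, ∀ (q : ℕ) [NeZero q] (χ : DirichletCharacter ℂ q) (T : ℝ),
      χ.IsPrimitive → C ≤ T → (q : ℝ) ^ τ ≤ T →
      ((2 * j + 1 - c (τ / (1 + τ))) / (j * (j + 1)) - ε) * (N χ T (2 * T) : ℝ) ≤
        (Nd χ T (2 * T) : ℝ)) ∧
    ∀ h : ℝ, 0 < h → h ≤ 1 → c h ≤ 1 / h + h / 3 := by
  have hh : ∀ τ : ℝ, 0 < τ → 0 < τ / (1 + τ) ∧ τ / (1 + τ) ≤ 1 := fun τ hτ =>
    ⟨by positivity, by rw [div_le_one (by linarith)]; linarith⟩
  refine ⟨fun τ ε hτ hε => ?_, fun j τ ε hj hτ hε => ?_, fun h h0 h1 => H295SI.cc_le h h0 h1⟩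
  · obtain ⟨h0, h1⟩ := hh τ hτ
    obtain ⟨C1, hC1, H1⟩ := Pool.Agent.Y762.single_j 1 le_rfl _ ε h0 h1 hε
    obtain ⟨C2, hC2, H2⟩ := Pool.Agent.J6H88.DZ.uni_pos _ ε h0 h1 hε
    obtain ⟨C3, hC3, H3⟩ := Pool.Agent.J6H88.DZ.single_s _ ε h0 h1 hε
    refine ⟨max C1 (max C2 C3), fun q _ χ T hχ hT hqT => ?_⟩
    have hT1 : C1 ≤ T := (le_max_left _ _).trans hT
    have hT2 : C2 ≤ T := ((le_max_left _ _).trans (le_max_right _ _)).trans hT
    have hT3 : C3 ≤ T := ((le_max_right _ _).trans (le_max_right _ _)).trans hT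
    have hTone : 1 ≤ T := hC1.trans hT1
    have hq := Pool.Agent.J6H88.DZ.height_pow (q := q) hτ hTone hqT
    have e : 3 * τ * (1 + τ) / (3 * (1 + τ) ^ 2 + τ ^ 2) =
        3 * (τ / (1 + τ)) / (3 + (τ / (1 + τ)) ^ 2) := by
      have h2 : (0 : ℝ) < 1 + τ := by linarith
      field_simp
    rw [e]
    refine ⟨H370.zset_finite' (H370.good_dirichlet χ hχ) T (2 * T) (by linarith),
      (H1 q χ T hχ hT1 hq).2, H2 q χ T hχ hT2 hq, ?_⟩
    have h3 := H3 q χ T hχ hT3 hq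
    have e2 : 2 - c (τ / (1 + τ)) - ε = 2 - (Pool.Agent.Y762.cH (τ / (1 + τ)) + ε) := by
      have : Pool.Agent.Y762.cH (τ / (1 + τ)) = c (τ / (1 + τ)) := rfl
      rw [this]; ring
    rw [e2]
    exact h3
  · obtain ⟨h0, h1⟩ := hh τ hτ
    obtain ⟨C1, hC1, H1⟩ := Pool.Agent.Y762.single_j j hj _ ε h0 h1 hε
    refine ⟨C1, fun q _ χ T hχ hT hqT => ?_⟩
    have hTone : 1 ≤ T := hC1.trans hT
    have hq := Pool.Agent.J6H88.DZ.height_pow (q := q) hτ hTone hqT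
    have r1 := (H1 q χ T hχ hT hq).1
    have hj1 : (1 : ℝ) ≤ j := by exact_mod_cast hj
    have hjj : 0 < (j : ℝ) * (j + 1) := by positivity
    have hN : (0 : ℝ) ≤ (N χ T (2 * T) : ℝ) := Nat.cast_nonneg _
    refine le_of_mul_le_mul_left ?_ hjj
    refine le_trans ?_ r1
    have e3 : (j : ℝ) * (j + 1) * (((2 * j + 1 - c (τ / (1 + τ))) / (j * (j + 1)) - ε) *
        (N χ T (2 * T) : ℝ)) =
        (2 * j + 1 - c (τ / (1 + τ)) - (j * (j + 1)) * ε) * (N χ T (2 * T) : ℝ) := by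
      field_simp
    rw [e3]
    refine mul_le_mul_of_nonneg_right ?_ hN
    have h4 : ε ≤ (j : ℝ) * (j + 1) * ε := by
      have : 1 ≤ (j : ℝ) * (j + 1) := by nlinarith
      nlinarith
    have e4 : Pool.Agent.Y762.cH (τ / (1 + τ)) = c (τ / (1 + τ)) := rfl
    rw [e4]
    linarith

end Pool.Agent.Results.MP_f259ea_nt.UniformInConductor
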